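import Pool.Agent.W830.RD.Stm

/-!
# STEP0: removing a completely incomparable pair preserves the hypothesis
-/

set_option autoImplicit false

namespace Pool.Agent.W976.RD.Step0

open Pool.Agent.W830.RD Finset
open scoped Classical

theorem pick {α : Type} {Q Q' J : Finset (Finset α)} (hQ : Q' ⊆ Q) (hJ : J ⊆ Q) (n : ℕ)
    (hn : n = 0 ∨ n + Q.card ≤ J.card + Q'.card) :
    ∃ J' ⊆ Q', J'.card = n ∧ ∑ C ∈ J', (C.card - 2) ≤ ∑ C ∈ J, (C.card - 2) := by
  have h1 : n ≤ (J ∩ Q').card := by
    rcases hn with h | h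
    · omega
    · have h2 : (J ∪ Q').card ≤ Q.card := Finset.card_le_card (Finset.union_subset hJ hQ)
      have h3 := Finset.card_union_add_card_inter J Q'
      omega
  obtain ⟨J', h2, h3⟩ := Finset.exists_subset_card_eq h1
  exact ⟨J', h2.trans Finset.inter_subset_right, h3,
    Finset.sum_le_sum_of_subset (h2.trans Finset.inter_subset_left)⟩

theorem gen {α : Type} [PartialOrder α] {N : ℤ} {S T S' T' : Finset α}
    {P Q P' Q' : Finset (Finset α)} (h : Hyp N S T P Q) (hS : S' ⊆ S) (hT : T' ⊆ T)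
    (hP : P' ⊆ P) (hQ : Q' ⊆ Q) (h1 : S'.card + P'.card + 1 = S.card + P.card)
    (h2 : T'.card + Q'.card + 1 = T.card + Q.card) : Hyp (N - 1) S' T' P' Q' := by
  have hSc := Finset.card_le_card hS
  have hTc := Finset.card_le_card hT
  have hPc := Finset.card_le_card hP
  have hQc := Finset.card_le_card hQ
  obtain ⟨J, hJ, I, hI, hJc, hIc, hsum⟩ := h.h5
  have g1 := h.h1
  have g2 := h.h2
  have g3 := h.h3
  have g4 := h.h4
  simp only [jj, exc] at g1 g2 g3 g4 hJc hIc hsum
  refine ⟨?_, ?_, ?_, ?_, ?_, ?_⟩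
  · exact ⟨fun C hC => h.st.chP C (hP hC), fun C hC => h.st.chQ C (hQ hC),
      fun C hC => h.st.cP C (hP hC), fun C hC => h.st.cQ C (hQ hC),
      fun C hC => (h.st.dP C (hP hC)).mono_right hS,
      fun C hC => (h.st.dQ C (hQ hC)).mono_right hT,
      fun C hC C' hC' => h.st.pP C (hP hC) C' (hP hC'),
      fun C hC C' hC' => h.st.pQ C (hQ hC) C' (hQ hC')⟩
  · omega
  · simp only [jj, exc]
    omega
  · omega
  · simp only [jj, exc]
    omega
  · obtain ⟨nJ, hnJ⟩ : ∃ n : ℕ, (n : ℤ) = max (max (jj (N - 1) S'.card T'.card P'.card Q'.card)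
        (exc (N - 1) S'.card T'.card P'.card Q'.card - T'.card)) 0 :=
      ⟨_, Int.toNat_of_nonneg (le_max_right _ _)⟩
    obtain ⟨nI, hnI⟩ : ∃ n : ℕ, (n : ℤ) = max (max (jj (N - 1) S'.card T'.card P'.card Q'.card)
        (exc (N - 1) S'.card T'.card P'.card Q'.card - S'.card)) 0 :=
      ⟨_, Int.toNat_of_nonneg (le_max_right _ _)⟩
    obtain ⟨J', hJ', hJ'c, hJ's⟩ := pick hQ hJ nJ (by
      simp only [jj, exc] at hnJ
      omega)
    obtain ⟨I', hI', hI'c, hI's⟩ := pick hP hI nI (by
      simp only [jj, exc] at hnI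
      omega)
    refine ⟨J', hJ', I', hI', ?_, ?_, ?_⟩
    · rw [hJ'c, hnJ]
    · rw [hI'c, hnI]
    · have e1 : ((∑ C ∈ J', (C.card - 2) : ℕ) : ℤ) ≤ ((∑ C ∈ J, (C.card - 2) : ℕ) : ℤ) := by
        exact_mod_cast hJ's
      have e2 : ((∑ C ∈ I', (C.card - 2) : ℕ) : ℤ) ≤ ((∑ C ∈ I, (C.card - 2) : ℕ) : ℤ) := by
        exact_mod_cast hI's
      simp only [exc]
      omega

theorem main : S_STEP0 := by
  intro α _ N S T P Q h
  refine ⟨fun x hx y hy => ?_, fun x hx C hC => ?_, fun C hC y hy => ?_, fun C hC C' hC' => ?_⟩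
  · have h1 := Finset.card_erase_add_one hx
    have h2 := Finset.card_erase_add_one hy
    exact gen h (Finset.erase_subset _ _) (Finset.erase_subset _ _) subset_rfl subset_rfl
      (by omega) (by omega)
  · have h1 := Finset.card_erase_add_one hx
    have h2 := Finset.card_erase_add_one hC
    exact gen h (Finset.erase_subset _ _) subset_rfl subset_rfl (Finset.erase_subset _ _)
      (by omega) (by omega)
  · have h1 := Finset.card_erase_add_one hC
    have h2 := Finset.card_erase_add_one hy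
    exact gen h subset_rfl (Finset.erase_subset _ _) (Finset.erase_subset _ _) subset_rfl
      (by omega) (by omega)
  · have h1 := Finset.card_erase_add_one hC
    have h2 := Finset.card_erase_add_one hC'
    exact gen h subset_rfl subset_rfl (Finset.erase_subset _ _) (Finset.erase_subset _ _)
      (by omega) (by omega)

end Pool.Agent.W976.RD.Step0
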